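import Pool.Agent.X262.SM.Dig

set_option autoImplicit false

/-! Comparison with power weights. -/

namespace Pool.Agent.X262.SM

open Finset Filter Topology
open Pool.Agent.Y854.PS (ms xs ms_mono)
open Pool.Agent.X20.Tr

lemma upow_diff (σ : ℝ) (hσ : 0 ≤ σ) (x : ℕ) (hx : 1 ≤ x) :
    (x : ℝ) ^ (-σ) - ((x + 1 : ℕ) : ℝ) ^ (-σ) ≤ σ * (x : ℝ) ^ (-σ - 1) := by
  have hx0 : (0 : ℝ) < x := by exact_mod_cast hx
  have e : ((x + 1 : ℕ) : ℝ) = x * (1 + 1 / x) := by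
    push_cast
    field_simp
  have h1 : (0 : ℝ) < 1 + 1 / (x : ℝ) := by positivity
  rw [e, Real.mul_rpow hx0.le h1.le, Real.rpow_sub hx0, Real.rpow_one]
  have h2 : 1 - σ / x ≤ (1 + 1 / (x : ℝ)) ^ (-σ) := by
    rw [Real.rpow_def_of_pos h1]
    have h3 := Real.add_one_le_exp (Real.log (1 + 1 / (x : ℝ)) * -σ)
    have h4 := Real.log_le_sub_one_of_pos h1
    have h5 : Real.log (1 + 1 / (x : ℝ)) * σ ≤ 1 / x * σ := mul_le_mul_of_nonneg_right (by linarith) hσ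
    have h6 : 1 / (x : ℝ) * σ = σ / x := by ring
    nlinarith
  have h7 : 0 ≤ (x : ℝ) ^ (-σ) := by positivity
  have h8 := mul_le_mul_of_nonneg_left h2 h7
  have h9 : (x : ℝ) ^ (-σ) * (1 - σ / x) = (x : ℝ) ^ (-σ) - σ * ((x : ℝ) ^ (-σ) / x) := by ring
  linarith

lemma ms_zero {α c : ℝ} (hc : 1 < c) : ms α c 0 = 0 := by
  unfold ms xs
  rw [Nat.cast_zero, Real.zero_rpow (by linarith), mul_zero, Nat.floor_zero]

lemma k_le {α c : ℝ} (hα : 0 < α) (hc : 1 < c) (k x : ℕ) (hx : 1 ≤ x) (h : ms α c k ≤ x) :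
    (k : ℝ) + 1 ≤ (1 + (2 / α) ^ (1 / c)) * (x : ℝ) ^ (1 / c) := by
  have hc0 : 0 < c := by linarith
  have hx1 : (1 : ℝ) ≤ x := by exact_mod_cast hx
  have h1 : xs α c k < ms α c k + 1 := Nat.lt_floor_add_one _
  have h2 : (ms α c k : ℝ) ≤ x := by exact_mod_cast h
  have h3 : α * (k : ℝ) ^ c ≤ 2 * x := by
    have : xs α c k = α * (k : ℝ) ^ c := rfl
    linarith
  have h4 : (k : ℝ) ^ c ≤ 2 / α * x := by
    rw [div_mul_eq_mul_div, le_div_iff₀ hα]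
    linarith
  have h5 : (k : ℝ) ≤ (2 / α * x) ^ (1 / c) := by
    have h6 := Real.rpow_le_rpow (by positivity) h4 (show 0 ≤ 1 / c by positivity)
    rwa [← Real.rpow_mul (Nat.cast_nonneg _), mul_one_div_cancel hc0.ne', Real.rpow_one] at h6
  rw [Real.mul_rpow (by positivity) (by positivity)] at h5
  have h6 : (1 : ℝ) ≤ (x : ℝ) ^ (1 / c) := Real.one_le_rpow hx1 (by positivity)
  linarith

open Classical in
/-- counting with the weights -/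
theorem compare {c α κ δ : ℝ} (hc : 1 < c) (hα : 0 < α) (hκ1 : κ < 1) (hδκ : δ < κ / c)
    (hδc : δ ≤ 1 / c) {f : ℕ → ℝ} (h0 : ∀ m, 0 ≤ f m) (h1 : ∀ m, f m ≤ 1) (hf0 : f 0 = 0)
    (hC : ∃ N₀ : ℕ, ∀ N : ℕ, N₀ ≤ N →
      |∑ n ∈ Icc 1 N, f (ms α c n) - ∑ m ∈ Ioc 0 (ms α c N), f m * wt c α m| ≤ 5 * (N : ℝ) ^ (1 - κ)) :
    ∃ C : ℝ, 0 ≤ C ∧ ∀ N : ℕ, |∑ n ∈ Icc 1 N, f (ms α c n) * (ms α c n : ℝ) ^ (δ - 1 / c) -
      ∑ m ∈ Ioc 0 (ms α c N), f m * wt c α m * (m : ℝ) ^ (δ - 1 / c)| ≤ C := by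
  have hc0 : 0 < c := by linarith
  obtain ⟨N₀, hN₀⟩ := hC
  obtain ⟨G, hG⟩ : ∃ G : ℕ → ℝ, ∀ k, G k = ∑ n ∈ Icc 1 k, f (ms α c n) := ⟨_, fun _ => rfl⟩
  obtain ⟨H, hH⟩ : ∃ H : ℕ → ℝ, ∀ x, H x = ∑ m ∈ Ioc 0 x, f m * wt c α m := ⟨_, fun _ => rfl⟩
  obtain ⟨K0, hK0⟩ : ∃ K0 : ℝ, K0 = ∑ k ∈ range N₀, |G k - H (ms α c k)| := ⟨_, rfl⟩
  have hK00 : 0 ≤ K0 := by rw [hK0]; exact sum_nonneg fun _ _ => abs_nonneg _
  have hD : ∀ k : ℕ, |G k - H (ms α c k)| ≤ K0 + 5 * (k : ℝ) ^ (1 - κ) := by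
    intro k
    rcases le_or_gt N₀ k with h | h
    · have := hN₀ k h
      rw [← hG, ← hH] at this
      linarith
    · have h2 : |G k - H (ms α c k)| ≤ K0 := by
        rw [hK0]
        exact single_le_sum (f := fun k => |G k - H (ms α c k)|) (fun _ _ => abs_nonneg _) (mem_range.2 h)
      have : 0 ≤ 5 * (k : ℝ) ^ (1 - κ) := by positivity
      linarith
  have hfw : ∀ m, 0 ≤ f m * wt c α m := fun m => mul_nonneg (h0 m) (wt_nonneg hc hα m)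
  have hHm : ∀ a b : ℕ, a ≤ b → H a ≤ H b := by
    intro a b hab
    rw [hH, hH]
    exact sum_le_sum_of_subset_of_nonneg (Ioc_subset_Ioc_right hab) fun m _ _ => hfw m
  obtain ⟨B, hB⟩ : ∃ B : ℝ, B = 1 + (2 / α) ^ (1 / c) := ⟨_, rfl⟩
  have hB1 : 1 ≤ B := by
    have : 0 ≤ (2 / α) ^ (1 / c) := by positivity
    linarith
  obtain ⟨θ, hθ⟩ : ∃ θ : ℝ, θ = (1 - κ) / c := ⟨_, rfl⟩
  have hθ0 : 0 ≤ θ := by rw [hθ]; exact div_nonneg (by linarith) hc0.le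
  have hpow : ∀ (k x : ℕ), 1 ≤ x → ms α c k ≤ x → ((k : ℝ) + 1) ^ (1 - κ) ≤ B ^ (1 - κ) * (x : ℝ) ^ θ := by
    intro k x hx hk
    have h3 := k_le hα hc k x hx hk
    rw [← hB] at h3
    have h4 := Real.rpow_le_rpow (by positivity) h3 (show 0 ≤ 1 - κ by linarith)
    rw [Real.mul_rpow (by linarith) (by positivity), ← Real.rpow_mul (Nat.cast_nonneg _)] at h4
    have e : 1 / c * (1 - κ) = θ := by rw [hθ]; ring
    rwa [e] at h4
  obtain ⟨B', hB'⟩ : ∃ B' : ℝ, B' = B ^ (1 - κ) := ⟨_, rfl⟩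
  rw [← hB'] at hpow
  have hB'0 : 0 ≤ B' := by rw [hB']; positivity
  obtain ⟨K3, hK3⟩ : ∃ K3 : ℝ, K3 = 1 + 2 * K0 + 10 * (B' * (1 + (1 : ℝ) + 1)) := ⟨_, rfl⟩
  have hK30 : 0 ≤ K3 := by rw [hK3]; positivity
  have hE : ∀ N x : ℕ, 1 ≤ x → x ≤ ms α c N →
      |∑ n ∈ (Icc 1 N).filter (fun n => ms α c n ≤ x), f (ms α c n) - H x| ≤ K3 * (x : ℝ) ^ θ := by
    intro N x hx hxN
    have hxr : (1 : ℝ) ≤ x := by exact_mod_cast hx
    have hxθ : (1 : ℝ) ≤ (x : ℝ) ^ θ := Real.one_le_rpow hxr hθ0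
    obtain ⟨k, hk⟩ : ∃ k : ℕ, k = Nat.findGreatest (fun n => ms α c n ≤ x) N := ⟨_, rfl⟩
    have hkN : k ≤ N := by rw [hk]; exact Nat.findGreatest_le N
    have hkx : ms α c k ≤ x := by
      rw [hk]
      exact Nat.findGreatest_spec (P := fun n => ms α c n ≤ x) (Nat.zero_le N) (by rw [ms_zero hc]; omega)
    have hfil : (Icc 1 N).filter (fun n => ms α c n ≤ x) = Icc 1 k := by
      ext n
      rw [mem_filter, mem_Icc, mem_Icc]
      constructor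
      · rintro ⟨⟨a1, a2⟩, a3⟩
        refine ⟨a1, ?_⟩
        rw [hk]
        exact Nat.le_findGreatest a2 a3
      · rintro ⟨a1, a2⟩
        exact ⟨⟨a1, a2.trans hkN⟩, (ms_mono hα hc0.le a2).trans hkx⟩
    rw [hfil, ← hG]
    have hkp := hpow k x hx hkx
    have hk0 : (k : ℝ) ^ (1 - κ) ≤ ((k : ℝ) + 1) ^ (1 - κ) :=
      Real.rpow_le_rpow (Nat.cast_nonneg _) (by linarith) (by linarith)
    have hDk := hD k
    have hfin : ∀ a : ℝ, 0 ≤ a → a ≤ 1 + 2 * K0 + 10 * (B' * (x : ℝ) ^ θ) → a ≤ K3 * (x : ℝ) ^ θ := by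
      intro a _ ha
      have h5 : 0 ≤ 1 + 2 * K0 := by linarith
      have h6 : 1 + 2 * K0 ≤ (1 + 2 * K0) * (x : ℝ) ^ θ := le_mul_of_one_le_right h5 hxθ
      have h7 : 0 ≤ B' * (x : ℝ) ^ θ := by positivity
      rw [hK3]
      nlinarith
    refine hfin _ (abs_nonneg _) ?_
    rcases hkN.eq_or_lt with h | h
    · have hxk : x = ms α c k := by
        rw [h] at hkx ⊢
        omega
      have h9 : |G k - H x| = |G k - H (ms α c k)| := by rw [← hxk]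
      rw [h9]
      have h7 : 0 ≤ B' * (x : ℝ) ^ θ := by positivity
      linarith
    · have hx2 : x < ms α c (k + 1) := by
        by_contra hcon
        have := Nat.le_findGreatest (P := fun n => ms α c n ≤ x) (n := N) (m := k + 1) (by omega) (not_lt.1 hcon)
        omega
      have hH1 := hHm _ _ hkx
      have hH2 := hHm _ _ hx2.le
      have hG1 : G (k + 1) = G k + f (ms α c (k + 1)) := by
        rw [hG, hG, Finset.sum_Icc_succ_top (by omega)]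
      have hDk1 := hD (k + 1)
      push_cast at hDk1
      have c1 := abs_le.1 hDk
      have c2 := abs_le.1 hDk1
      have c3 := h1 (ms α c (k + 1))
      rw [abs_le]
      constructor <;> nlinarith [c1.1, c1.2, c2.1, c2.2]
  -- Abel summation
  obtain ⟨σ, hσ⟩ : ∃ σ : ℝ, σ = 1 / c - δ := ⟨_, rfl⟩
  have hσ0 : 0 ≤ σ := by rw [hσ]; linarith
  have hσθ : θ < σ := by
    rw [hθ, hσ, sub_div]
    linarith
  have hexp : δ - 1 / c = -σ := by rw [hσ]; ring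
  rw [hexp]
  have hsumm : Summable (fun n : ℕ => (n : ℝ) ^ (θ - σ - 1)) := Real.summable_nat_rpow.2 (by linarith)
  obtain ⟨T, hT⟩ : ∃ T : ℝ, T = ∑' n : ℕ, (n : ℝ) ^ (θ - σ - 1) := ⟨_, rfl⟩
  have hT0 : 0 ≤ T := by rw [hT]; exact tsum_nonneg fun n => by positivity
  refine ⟨K3 + K3 * σ * T, by positivity, fun N => ?_⟩
  obtain ⟨X, hX⟩ : ∃ X : ℕ, X = ms α c N := ⟨_, rfl⟩
  obtain ⟨g, hg⟩ : ∃ g : ℕ → ℝ, ∀ m, g m = ∑ n ∈ Icc 1 N, (if ms α c n = m then f (ms α c n) else 0) :=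
    ⟨_, fun _ => rfl⟩
  have hgs : ∀ x, ∑ m ∈ Ioc 0 x, g m = ∑ n ∈ (Icc 1 N).filter (fun n => ms α c n ≤ x), f (ms α c n) := by
    intro x
    rw [sum_congr rfl fun m _ => hg m, sum_comm, sum_filter]
    apply sum_congr rfl
    intro n _
    rw [Finset.sum_ite_eq]
    by_cases hm : ms α c n = 0
    · rw [hm, hf0]
      simp
    · by_cases hmx : ms α c n ≤ x
      · rw [if_pos (mem_Ioc.2 ⟨Nat.pos_of_ne_zero hm, hmx⟩), if_pos hmx]
      · rw [if_neg (fun h => hmx (mem_Ioc.1 h).2), if_neg hmx]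
  have hgu : ∑ m ∈ Ioc 0 X, g m * (m : ℝ) ^ (-σ) = ∑ n ∈ Icc 1 N, f (ms α c n) * (ms α c n : ℝ) ^ (-σ) := by
    have e1 : ∑ m ∈ Ioc 0 X, g m * (m : ℝ) ^ (-σ) = ∑ m ∈ Ioc 0 X, ∑ n ∈ Icc 1 N,
        (if ms α c n = m then f (ms α c n) * (ms α c n : ℝ) ^ (-σ) else 0) := by
      apply sum_congr rfl
      intro m _
      rw [hg, sum_mul]
      apply sum_congr rfl
      intro n _
      split_ifs with h
      · rw [h]
      · rw [zero_mul]
    rw [e1, sum_comm]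
    apply sum_congr rfl
    intro n hn
    rw [Finset.sum_ite_eq]
    by_cases hm : ms α c n = 0
    · rw [hm, hf0]
      simp
    · rw [if_pos]
      rw [mem_Ioc, hX]
      exact ⟨Nat.pos_of_ne_zero hm, ms_mono hα hc0.le (mem_Icc.1 hn).2⟩
  have key := abel (fun m => g m - f m * wt c α m) (fun m => (m : ℝ) ^ (-σ)) X
  have e2 : ∑ m ∈ Ioc 0 X, (g m - f m * wt c α m) * (m : ℝ) ^ (-σ) =
      ∑ n ∈ Icc 1 N, f (ms α c n) * (ms α c n : ℝ) ^ (-σ) - ∑ m ∈ Ioc 0 X, f m * wt c α m * (m : ℝ) ^ (-σ) := by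
    rw [← hgu, ← sum_sub_distrib]
    apply sum_congr rfl
    intro m _
    ring
  have e3 : ∀ x, ∑ m ∈ Ioc 0 x, (g m - f m * wt c α m) =
      ∑ n ∈ (Icc 1 N).filter (fun n => ms α c n ≤ x), f (ms α c n) - H x := by
    intro x
    rw [sum_sub_distrib, hgs, hH]
  rw [e2] at key
  rw [← hX, key]
  simp only [e3]
  rcases Nat.eq_zero_or_pos X with hX0 | hX0
  · rw [hX0]
    have e4 : H 0 = 0 := by rw [hH]; simp
    have e5 : ∑ n ∈ (Icc 1 N).filter (fun n => ms α c n ≤ 0), f (ms α c n) = 0 := by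
      rw [← hgs]
      simp
    rw [e4, e5]
    simp only [Ioc_self, sum_empty, sub_zero, zero_mul, add_zero, abs_zero]
    positivity
  have f1 : |(∑ n ∈ (Icc 1 N).filter (fun n => ms α c n ≤ X), f (ms α c n) - H X) * ((X + 1 : ℕ) : ℝ) ^ (-σ)| ≤
      K3 := by
    rw [abs_mul, abs_of_nonneg (by positivity : (0 : ℝ) ≤ ((X + 1 : ℕ) : ℝ) ^ (-σ))]
    have h5 := hE N X hX0 (by rw [hX])
    have hXr : (1 : ℝ) ≤ X := by exact_mod_cast hX0
    have h6 : ((X + 1 : ℕ) : ℝ) ^ (-σ) ≤ (X : ℝ) ^ (-σ) :=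
      Real.rpow_le_rpow_of_nonpos (by linarith) (by push_cast; linarith) (by linarith)
    calc _ ≤ K3 * (X : ℝ) ^ θ * (X : ℝ) ^ (-σ) :=
          mul_le_mul h5 h6 (by positivity) (by positivity)
      _ = K3 * (X : ℝ) ^ (θ + -σ) := by rw [Real.rpow_add (by linarith)]; ring
      _ ≤ K3 * 1 := by
          apply mul_le_mul_of_nonneg_left _ hK30
          exact Real.rpow_le_one_of_one_le_of_nonpos hXr (by linarith)
      _ = K3 := mul_one _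
  have f2 : |∑ x ∈ Ioc 0 X, (∑ n ∈ (Icc 1 N).filter (fun n => ms α c n ≤ x), f (ms α c n) - H x) *
      ((x : ℝ) ^ (-σ) - ((x + 1 : ℕ) : ℝ) ^ (-σ))| ≤ K3 * σ * T := by
    refine (abs_sum_le_sum_abs _ _).trans ?_
    have h5 : ∀ x ∈ Ioc 0 X, |(∑ n ∈ (Icc 1 N).filter (fun n => ms α c n ≤ x), f (ms α c n) - H x) *
        ((x : ℝ) ^ (-σ) - ((x + 1 : ℕ) : ℝ) ^ (-σ))| ≤ K3 * σ * (x : ℝ) ^ (θ - σ - 1) := by
      intro x hx
      obtain ⟨hx1, hx2⟩ := mem_Ioc.1 hx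
      have hxr : (0 : ℝ) < x := by exact_mod_cast hx1
      have h6 := hE N x hx1 (by rw [← hX]; exact hx2)
      have h7 := upow_diff σ hσ0 x hx1
      have h8 : 0 ≤ (x : ℝ) ^ (-σ) - ((x + 1 : ℕ) : ℝ) ^ (-σ) := by
        have : ((x + 1 : ℕ) : ℝ) ^ (-σ) ≤ (x : ℝ) ^ (-σ) :=
          Real.rpow_le_rpow_of_nonpos hxr (by push_cast; linarith) (by linarith)
        linarith
      rw [abs_mul, abs_of_nonneg h8]
      calc _ ≤ K3 * (x : ℝ) ^ θ * (σ * (x : ℝ) ^ (-σ - 1)) := mul_le_mul h6 h7 h8 (by positivity)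
        _ = K3 * σ * ((x : ℝ) ^ θ * (x : ℝ) ^ (-σ - 1)) := by ring
        _ = K3 * σ * (x : ℝ) ^ (θ - σ - 1) := by
            rw [← Real.rpow_add hxr]
            congr 2
            ring
    refine (sum_le_sum h5).trans ?_
    rw [← mul_sum]
    apply mul_le_mul_of_nonneg_left _ (by positivity)
    rw [hT]
    exact hsumm.sum_le_tsum _ fun n _ => by positivity
  exact (abs_add_le _ _).trans (add_le_add f1 f2)

end Pool.Agent.X262.SM
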