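import Pool.Agent.X20.Tr.Gen

set_option autoImplicit false

/-! The transfer theorem for functions with values in `[0, 1]`. -/

namespace Pool.Agent.X262.SM

open Finset Filter Topology
open Pool.Agent.Y854.PS (ms xs)
open Pool.Agent.X20.Tr

/-- the digits of `f` -/
noncomputable def dg (f : ℕ → ℝ) (t m : ℕ) : ℝ :=
  if t = 0 then (⌊f m⌋₊ : ℝ) else (⌊2 ^ t * f m⌋₊ : ℝ) - 2 * (⌊2 ^ (t - 1) * f m⌋₊ : ℝ)

lemma fl2 (x : ℝ) (hx : 0 ≤ x) : (⌊2 * x⌋₊ : ℝ) - 2 * (⌊x⌋₊ : ℝ) = 0 ∨ (⌊2 * x⌋₊ : ℝ) - 2 * (⌊x⌋₊ : ℝ) = 1 := by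
  have h1 := Nat.floor_le hx
  have h2 := Nat.lt_floor_add_one x
  have h3 : 2 * ⌊x⌋₊ ≤ ⌊2 * x⌋₊ := Nat.le_floor (by push_cast; linarith)
  have h4 : ⌊2 * x⌋₊ < 2 * ⌊x⌋₊ + 2 := by
    rw [Nat.floor_lt (by linarith)]
    push_cast
    linarith
  have h5 : ⌊2 * x⌋₊ = 2 * ⌊x⌋₊ ∨ ⌊2 * x⌋₊ = 2 * ⌊x⌋₊ + 1 := by omega
  rcases h5 with h | h
  · left
    rw [h]
    push_cast
    ring
  · right
    rw [h]
    push_cast
    ring

lemma dg_tri (f : ℕ → ℝ) (h0 : ∀ m, 0 ≤ f m) (h1 : ∀ m, f m ≤ 1) (t : ℕ) : Tri (dg f t) := by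
  intro m
  unfold dg
  split_ifs with ht
  · have h2 : ⌊f m⌋₊ ≤ 1 := by
      have := Nat.floor_le (h0 m)
      have h3 : (⌊f m⌋₊ : ℝ) ≤ 1 := this.trans (h1 m)
      exact_mod_cast h3
    rcases Nat.le_one_iff_eq_zero_or_eq_one.1 h2 with h | h <;> rw [h] <;> norm_num
  · obtain ⟨s, rfl⟩ : ∃ s, t = s + 1 := ⟨t - 1, by omega⟩
    rw [Nat.add_sub_cancel, pow_succ, mul_comm ((2 : ℝ) ^ s) 2, mul_assoc]
    rcases fl2 (2 ^ s * f m) (mul_nonneg (by positivity) (h0 m)) with h | h <;> rw [h] <;> norm_num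

lemma dg_sum (f : ℕ → ℝ) (m J : ℕ) :
    ∑ t ∈ range (J + 1), dg f t m / 2 ^ t = (⌊2 ^ J * f m⌋₊ : ℝ) / 2 ^ J := by
  induction J with
  | zero => simp [dg]
  | succ J ih =>
    rw [sum_range_succ, ih]
    unfold dg
    rw [if_neg (by omega), Nat.add_sub_cancel]
    have : (2 : ℝ) ^ J ≠ 0 := by positivity
    field_simp
    ring

lemma dg_err (f : ℕ → ℝ) (h0 : ∀ m, 0 ≤ f m) (m J : ℕ) :
    |f m - ∑ t ∈ range (J + 1), dg f t m / 2 ^ t| ≤ 1 / 2 ^ J := by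
  rw [dg_sum]
  have hp : (0 : ℝ) < 2 ^ J := by positivity
  have h1 := Nat.floor_le (mul_nonneg hp.le (h0 m))
  have h2 := Nat.lt_floor_add_one (2 ^ J * f m)
  have e : f m - (⌊2 ^ J * f m⌋₊ : ℝ) / 2 ^ J = (2 ^ J * f m - ⌊2 ^ J * f m⌋₊) / 2 ^ J := by
    field_simp
  rw [e, abs_div, abs_of_pos hp, abs_of_nonneg (by linarith)]
  apply div_le_div_of_nonneg_right _ hp.le
  linarith

/-- **transfer for functions with values in `[0, 1]`** -/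
theorem transfer01 (c : ℝ) (hc : 1 < c) : ∃ κ : ℝ, 0 < κ ∧ κ < 1 ∧ ∀ f : ℕ → ℝ, (∀ m, 0 ≤ f m) →
    (∀ m, f m ≤ 1) → ∃ E : Set ℝ, dimH E ≤ ENNReal.ofReal (1 - κ) ∧ ∀ α : ℝ, 0 < α → α ∉ E →
      ∃ N₀ : ℕ, ∀ N : ℕ, N₀ ≤ N → |(N : ℝ) - ∑ m ∈ Ioc 0 (ms α c N), wt c α m| ≤ (N : ℝ) ^ (1 - κ) ∧
        |∑ n ∈ Icc 1 N, f (ms α c n) - ∑ m ∈ Ioc 0 (ms α c N), f m * wt c α m| ≤ 5 * (N : ℝ) ^ (1 - κ) := by
  obtain ⟨κ, hκ0, hκ1, H⟩ := fun_transfer c hc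
  refine ⟨κ, hκ0, hκ1, fun f h0 h1 => ?_⟩
  obtain ⟨E, hE, h⟩ := H (dg f) (dg_tri f h0 h1)
  refine ⟨E, hE, fun α hα hαE => ?_⟩
  obtain ⟨N₀, hN₀⟩ := h α hα hαE
  refine ⟨max N₀ 1, fun N hN => ?_⟩
  obtain ⟨k1, k2⟩ := hN₀ N ((le_max_left _ _).trans hN)
  refine ⟨k1, ?_⟩
  have hN1 : (1 : ℝ) ≤ N := by exact_mod_cast (le_max_right _ _).trans hN
  obtain ⟨P, hP⟩ : ∃ P : ℝ, P = (N : ℝ) ^ (1 - κ) := ⟨_, rfl⟩
  rw [← hP] at k1 k2 ⊢
  have hP0 : 0 < P := by rw [hP]; positivity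
  obtain ⟨J, hJ⟩ : ∃ J : ℕ, J = ⌊(N : ℝ) ^ κ⌋₊ := ⟨_, rfl⟩
  have hJ1 : (J : ℝ) ≤ (N : ℝ) ^ κ := by rw [hJ]; exact Nat.floor_le (by positivity)
  have hJ2 : (N : ℝ) ^ κ ≤ 2 ^ J := by
    have h3 := Nat.lt_floor_add_one ((N : ℝ) ^ κ)
    rw [← hJ] at h3
    have h4 : J + 1 ≤ 2 ^ J := Nat.lt_two_pow_self
    have h5 : ((J + 1 : ℕ) : ℝ) ≤ 2 ^ J := by exact_mod_cast h4
    push_cast at h5
    linarith
  have hw : ∀ m, 0 ≤ wt c α m := wt_nonneg hc hα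
  -- truncation
  obtain ⟨S, hS⟩ : ∃ S : ℕ → ℝ, ∀ m, S m = ∑ t ∈ range (J + 1), dg f t m / 2 ^ t := ⟨_, fun _ => rfl⟩
  have hSe : ∀ m, |f m - S m| ≤ 1 / 2 ^ J := fun m => by rw [hS]; exact dg_err f h0 m J
  have a1 : |∑ n ∈ Icc 1 N, f (ms α c n) - ∑ n ∈ Icc 1 N, S (ms α c n)| ≤ P := by
    rw [← sum_sub_distrib]
    refine (abs_sum_le_sum_abs _ _).trans ((sum_le_sum fun n _ => hSe _).trans ?_)
    rw [sum_const, Nat.card_Icc, Nat.add_sub_cancel, nsmul_eq_mul, hP, Real.rpow_sub (by linarith),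
      Real.rpow_one, mul_one_div]
    apply div_le_div_of_nonneg_left (by linarith) (by positivity) hJ2
  have hPN : P ≤ N := by
    rw [hP]
    calc (N : ℝ) ^ (1 - κ) ≤ (N : ℝ) ^ (1 : ℝ) := Real.rpow_le_rpow_of_exponent_le hN1 (by linarith)
      _ = N := Real.rpow_one _
  have a2 : |∑ m ∈ Ioc 0 (ms α c N), f m * wt c α m - ∑ m ∈ Ioc 0 (ms α c N), S m * wt c α m| ≤ 2 * P := by
    rw [← sum_sub_distrib]
    refine (abs_sum_le_sum_abs _ _).trans ?_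
    have h3 : ∑ m ∈ Ioc 0 (ms α c N), |f m * wt c α m - S m * wt c α m| ≤
        1 / 2 ^ J * ∑ m ∈ Ioc 0 (ms α c N), wt c α m := by
      rw [mul_sum]
      apply sum_le_sum
      intro m _
      rw [← sub_mul, abs_mul, abs_of_nonneg (hw m)]
      exact mul_le_mul_of_nonneg_right (hSe m) (hw m)
    have h4 : ∑ m ∈ Ioc 0 (ms α c N), wt c α m ≤ 2 * N := by
      have := (abs_le.1 k1).1
      linarith
    refine h3.trans ?_
    calc 1 / 2 ^ J * ∑ m ∈ Ioc 0 (ms α c N), wt c α m ≤ 1 / 2 ^ J * (2 * N) :=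
          mul_le_mul_of_nonneg_left h4 (by positivity)
      _ = 2 * (N / 2 ^ J) := by ring
      _ ≤ 2 * P := by
          apply mul_le_mul_of_nonneg_left _ (by norm_num)
          rw [hP, Real.rpow_sub (by linarith), Real.rpow_one]
          exact div_le_div_of_nonneg_left (by linarith) (by positivity) hJ2
  have a3 : |∑ n ∈ Icc 1 N, S (ms α c n) - ∑ m ∈ Ioc 0 (ms α c N), S m * wt c α m| ≤ 2 * P := by
    have e1 : ∑ n ∈ Icc 1 N, S (ms α c n) =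
        ∑ t ∈ range (J + 1), (∑ n ∈ Icc 1 N, dg f t (ms α c n)) / 2 ^ t := by
      rw [sum_congr rfl fun n _ => hS (ms α c n), sum_comm]
      exact sum_congr rfl fun t _ => (sum_div _ _ _).symm
    have e2 : ∑ m ∈ Ioc 0 (ms α c N), S m * wt c α m =
        ∑ t ∈ range (J + 1), (∑ m ∈ Ioc 0 (ms α c N), dg f t m * wt c α m) / 2 ^ t := by
      rw [sum_congr rfl fun m _ => by rw [hS m, sum_mul], sum_comm]
      apply sum_congr rfl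
      intro t _
      rw [sum_div]
      apply sum_congr rfl
      intro m _
      ring
    rw [e1, e2, ← sum_sub_distrib]
    refine (abs_sum_le_sum_abs _ _).trans ?_
    have h3 : ∑ t ∈ range (J + 1), |(∑ n ∈ Icc 1 N, dg f t (ms α c n)) / 2 ^ t -
        (∑ m ∈ Ioc 0 (ms α c N), dg f t m * wt c α m) / 2 ^ t| ≤ ∑ t ∈ range (J + 1), P * (1 / 2) ^ t := by
      apply sum_le_sum
      intro t ht
      have ht' : (t : ℝ) ≤ (N : ℝ) ^ κ := by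
        have h6 : t ≤ J := by have := mem_range.1 ht; omega
        have : (t : ℝ) ≤ J := by exact_mod_cast h6
        linarith
      rw [← sub_div, abs_div, abs_of_pos (by positivity : (0 : ℝ) < 2 ^ t), div_eq_mul_inv, one_div, inv_pow]
      exact mul_le_mul_of_nonneg_right (k2 t ht') (by positivity)
    refine h3.trans ?_
    rw [← mul_sum]
    have h7 : ∑ t ∈ range (J + 1), (1 / 2 : ℝ) ^ t ≤ 2 := by
      have := Summable.sum_le_tsum (range (J + 1)) (fun t _ => by positivity) summable_geometric_two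
      rwa [tsum_geometric_two] at this
    nlinarith
  have b1 := abs_le.1 a1
  have b2 := abs_le.1 a2
  have b3 := abs_le.1 a3
  rw [abs_le]
  constructor <;> linarith [b1.1, b1.2, b2.1, b2.2, b3.1, b3.2]

end Pool.Agent.X262.SM
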