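import Pool.Agent.X262.SM.Dig

set_option autoImplicit false

/-! Pointwise convergence of averages of arbitrary bounded sequences of functions along `⌊α n ^ c⌋`. -/

namespace Pool.Agent.X262.SM

open Finset Filter Topology MeasureTheory
open Pool.Agent.Y854.PS (ms xs ms_mono)
open Pool.Agent.X20.Tr

lemma vol_zero {E : Set ℝ} {κ : ℝ} (hκ : 0 < κ) (h : dimH E ≤ ENNReal.ofReal (1 - κ)) : volume E = 0 := by
  have h1 : dimH E < ((1 : NNReal) : ENNReal) := by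
    refine lt_of_le_of_lt h ?_
    rw [ENNReal.coe_one, ← ENNReal.ofReal_one]
    exact (ENNReal.ofReal_lt_ofReal_iff one_pos).2 (by linarith)
  have h2 := hausdorffMeasure_of_dimH_lt h1
  rw [NNReal.coe_one, hausdorffMeasure_real] at h2
  exact h2

/-- the inequalities of the transfer theorem -/
def Good (c κ α : ℝ) (f : ℕ → ℝ) : Prop := ∃ N₀ : ℕ, ∀ N : ℕ, N₀ ≤ N →
  |(N : ℝ) - ∑ m ∈ Ioc 0 (ms α c N), wt c α m| ≤ (N : ℝ) ^ (1 - κ) ∧
    |∑ n ∈ Icc 1 N, f (ms α c n) - ∑ m ∈ Ioc 0 (ms α c N), f m * wt c α m| ≤ 5 * (N : ℝ) ^ (1 - κ)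

lemma five_le {κ : ℝ} (hκ : 0 < κ) : ∃ N₁ : ℕ, ∀ N : ℕ, N₁ ≤ N →
    (N : ℝ) ^ (1 - κ) ≤ (N : ℝ) ^ (1 - κ / 2) ∧ 5 * (N : ℝ) ^ (1 - κ) ≤ (N : ℝ) ^ (1 - κ / 2) := by
  have h1 : Tendsto (fun n : ℕ => (n : ℝ) ^ (κ / 2)) atTop atTop :=
    (tendsto_rpow_atTop (by positivity)).comp tendsto_natCast_atTop_atTop
  obtain ⟨N₁, h⟩ := ((eventually_ge_atTop 1).and (h1.eventually_ge_atTop 5)).exists_forall_of_atTop
  refine ⟨N₁, fun N hN => ?_⟩
  obtain ⟨a1, a2⟩ := h N hN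
  have hN0 : (0 : ℝ) < N := by exact_mod_cast a1
  have e : (N : ℝ) ^ (1 - κ / 2) = (N : ℝ) ^ (κ / 2) * (N : ℝ) ^ (1 - κ) := by
    rw [← Real.rpow_add hN0]
    congr 1
    ring
  have h3 : 0 < (N : ℝ) ^ (1 - κ) := by positivity
  rw [e]
  constructor <;> nlinarith

lemma Ioc_eq_Icc (X : ℕ) : Ioc 0 X = Icc 1 X := by
  ext m
  simp only [mem_Ioc, mem_Icc]
  omega

/-- for one sequence -/
lemma mean_iff {c κ α : ℝ} (hc : 1 < c) (hα : 0 < α) (hκ : 0 < κ) (hκ1 : κ < 1) {f : ℕ → ℝ}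
    (h0 : ∀ m, 0 ≤ f m) (h1 : ∀ m, f m ≤ 1) (hG : Good c κ α f) (L : ℝ) :
    Tendsto (fun N : ℕ => (∑ n ∈ Icc 1 N, f n) / N) atTop (𝓝 L) ↔
      Tendsto (fun N : ℕ => (∑ n ∈ Icc 1 N, f ⌊α * (n : ℝ) ^ c⌋₊) / N) atTop (𝓝 L) := by
  obtain ⟨N₀, hN₀⟩ := hG
  obtain ⟨N₁, hN₁⟩ := five_le hκ
  have hCf : Cmp c α (κ / 2) f := by
    refine ⟨max N₀ N₁, fun N hN => ?_⟩
    obtain ⟨a1, a2⟩ := hN₀ N ((le_max_left _ _).trans hN)
    obtain ⟨b1, b2⟩ := hN₁ N ((le_max_right _ _).trans hN)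
    exact ⟨a1.trans b1, a2.trans b2⟩
  have hCg : Cmp c α (κ / 2) (fun _ => 1) := by
    refine ⟨max N₀ N₁, fun N hN => ?_⟩
    obtain ⟨a1, a2⟩ := hN₀ N ((le_max_left _ _).trans hN)
    obtain ⟨b1, b2⟩ := hN₁ N ((le_max_right _ _).trans hN)
    refine ⟨a1.trans b1, ?_⟩
    simp only [one_mul, sum_const, Nat.card_Icc, Nat.add_sub_cancel, nsmul_eq_mul, mul_one]
    exact a1.trans b1
  have key := gen_iff hc hα (half_pos hκ) (by linarith) h0 h1 (fun _ => le_rfl) hCf hCg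
    ⟨1, one_pos, 0, fun X _ => by simp⟩ L
  have e1 : (fun X : ℕ => (∑ m ∈ Ioc 0 X, f m) / ∑ m ∈ Ioc 0 X, (1 : ℝ)) =
      fun N : ℕ => (∑ n ∈ Icc 1 N, f n) / N := by
    funext X
    rw [Ioc_eq_Icc, sum_const, Nat.card_Icc, Nat.add_sub_cancel, nsmul_eq_mul, mul_one]
  have e2 : (fun N : ℕ => (∑ n ∈ Icc 1 N, f (ms α c n)) / ∑ n ∈ Icc 1 N, (1 : ℝ)) =
      fun N : ℕ => (∑ n ∈ Icc 1 N, f ⌊α * (n : ℝ) ^ c⌋₊) / N := by
    funext X
    rw [sum_const, Nat.card_Icc, Nat.add_sub_cancel, nsmul_eq_mul, mul_one]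
    rfl
  rw [e1, e2] at key
  exact key

lemma meas_ms (c : ℝ) (n : ℕ) : Measurable (fun α : ℝ => ms α c n) := by
  unfold ms xs
  exact Nat.measurable_floor.comp (measurable_id.mul_const _)

lemma meas_wt (c : ℝ) (m : ℕ) : Measurable (fun α : ℝ => wt c α m) := by
  unfold wt
  exact ((measurable_id.pow_const _).const_mul _).mul_const _

/-- **arbitrary bounded sequences of functions** -/
theorem erg01 (c : ℝ) (hc : 1 < c) {X : Type*} [MeasurableSpace X] (μ : Measure X) [SFinite μ]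
    (a : ℕ → X → ℝ) (ha : ∀ n, Measurable (a n)) (h0 : ∀ n x, 0 ≤ a n x) (h1 : ∀ n x, a n x ≤ 1) :
    ∀ᵐ α : ℝ, 0 < α → ∀ᵐ x ∂μ, ∀ L : ℝ,
      (Tendsto (fun N : ℕ => (∑ n ∈ Icc 1 N, a n x) / N) atTop (𝓝 L) ↔
        Tendsto (fun N : ℕ => (∑ n ∈ Icc 1 N, a ⌊α * (n : ℝ) ^ c⌋₊ x) / N) atTop (𝓝 L)) := by
  obtain ⟨κ, hκ0, hκ1, H⟩ := transfer01 c hc
  have hmeas : MeasurableSet {p : ℝ × X | 0 < p.1 → Good c κ p.1 (fun m => a m p.2)} := by
    have m1 : ∀ N : ℕ, Measurable (fun p : ℝ × X => ∑ m ∈ Ioc 0 (ms p.1 c N), wt c p.1 m) := by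
      intro N
      have h2 : Measurable (fun q : ℕ × ℝ => ∑ m ∈ Ioc 0 q.1, wt c q.2 m) :=
        measurable_from_prod_countable_right fun k => by
          show Measurable fun α : ℝ => ∑ m ∈ Ioc 0 k, wt c α m
          exact Finset.measurable_fun_sum _ fun m _ => meas_wt c m
      exact h2.comp (((meas_ms c N).comp measurable_fst).prodMk measurable_fst)
    have m2 : ∀ N : ℕ, Measurable (fun p : ℝ × X => ∑ m ∈ Ioc 0 (ms p.1 c N), a m p.2 * wt c p.1 m) := by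
      intro N
      have h2 : Measurable (fun q : ℕ × (ℝ × X) => ∑ m ∈ Ioc 0 q.1, a m q.2.2 * wt c q.2.1 m) :=
        measurable_from_prod_countable_right fun k => by
          show Measurable fun q : ℝ × X => ∑ m ∈ Ioc 0 k, a m q.2 * wt c q.1 m
          exact Finset.measurable_fun_sum _ fun m _ =>
          ((ha m).comp measurable_snd).mul ((meas_wt c m).comp measurable_fst)
      exact h2.comp (((meas_ms c N).comp measurable_fst).prodMk measurable_id)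
    have m3 : ∀ N : ℕ, Measurable (fun p : ℝ × X => ∑ n ∈ Icc 1 N, a (ms p.1 c n) p.2) := by
      intro N
      refine Finset.measurable_sum _ fun n _ => ?_
      have h2 : Measurable (fun q : ℕ × X => a q.1 q.2) := measurable_from_prod_countable_right fun k => ha k
      exact h2.comp (((meas_ms c n).comp measurable_fst).prodMk measurable_snd)
    have e : {p : ℝ × X | 0 < p.1 → Good c κ p.1 (fun m => a m p.2)} =
        {p : ℝ × X | 0 < p.1}ᶜ ∪ ⋃ N₀ : ℕ, ⋂ N : ℕ, {p : ℝ × X | N₀ ≤ N →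
          (|(N : ℝ) - ∑ m ∈ Ioc 0 (ms p.1 c N), wt c p.1 m| ≤ (N : ℝ) ^ (1 - κ) ∧
          |∑ n ∈ Icc 1 N, a (ms p.1 c n) p.2 - ∑ m ∈ Ioc 0 (ms p.1 c N), a m p.2 * wt c p.1 m| ≤
            5 * (N : ℝ) ^ (1 - κ))} := by
      ext p
      simp only [Good, Set.mem_setOf_eq, Set.mem_union, Set.mem_compl_iff, Set.mem_iUnion, Set.mem_iInter]
      tauto
    rw [e]
    refine (measurableSet_lt measurable_const measurable_fst).compl.union
      (MeasurableSet.iUnion fun N₀ => MeasurableSet.iInter fun N => ?_)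
    by_cases hN : N₀ ≤ N
    · have e3 : {p : ℝ × X | N₀ ≤ N →
          (|(N : ℝ) - ∑ m ∈ Ioc 0 (ms p.1 c N), wt c p.1 m| ≤ (N : ℝ) ^ (1 - κ) ∧
          |∑ n ∈ Icc 1 N, a (ms p.1 c n) p.2 - ∑ m ∈ Ioc 0 (ms p.1 c N), a m p.2 * wt c p.1 m| ≤
            5 * (N : ℝ) ^ (1 - κ))} =
          {p : ℝ × X | |(N : ℝ) - ∑ m ∈ Ioc 0 (ms p.1 c N), wt c p.1 m| ≤ (N : ℝ) ^ (1 - κ)} ∩
          {p : ℝ × X | |∑ n ∈ Icc 1 N, a (ms p.1 c n) p.2 - ∑ m ∈ Ioc 0 (ms p.1 c N), a m p.2 * wt c p.1 m| ≤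
            5 * (N : ℝ) ^ (1 - κ)} := by
        ext p
        simp only [Set.mem_setOf_eq, Set.mem_inter_iff]
        tauto
      rw [e3]
      exact (measurableSet_le (measurable_const.sub (m1 N)).abs measurable_const).inter
        (measurableSet_le ((m3 N).sub (m2 N)).abs measurable_const)
    · have e3 : {p : ℝ × X | N₀ ≤ N →
          (|(N : ℝ) - ∑ m ∈ Ioc 0 (ms p.1 c N), wt c p.1 m| ≤ (N : ℝ) ^ (1 - κ) ∧
          |∑ n ∈ Icc 1 N, a (ms p.1 c n) p.2 - ∑ m ∈ Ioc 0 (ms p.1 c N), a m p.2 * wt c p.1 m| ≤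
            5 * (N : ℝ) ^ (1 - κ))} = Set.univ := by
        ext p
        simp only [Set.mem_setOf_eq, Set.mem_univ, iff_true]
        exact fun h => absurd h hN
      rw [e3]
      exact MeasurableSet.univ
  have hx : ∀ᵐ x ∂μ, ∀ᵐ α : ℝ, 0 < α → Good c κ α (fun m => a m x) := by
    refine Eventually.of_forall fun x => ?_
    obtain ⟨E, hE, h⟩ := H (fun m => a m x) (fun m => h0 m x) (fun m => h1 m x)
    have hE0 : ∀ᵐ α : ℝ, α ∉ E := by
      rw [ae_iff]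
      simpa using vol_zero hκ0 hE
    filter_upwards [hE0] with α hα hα0
    exact h α hα0 hα
  have hsw := (Measure.ae_ae_comm (μ := (volume : Measure ℝ)) (ν := μ)
    (p := fun (α : ℝ) (x : X) => 0 < α → Good c κ α (fun m => a m x)) hmeas).2 hx
  filter_upwards [hsw] with α hα hα0
  filter_upwards [hα] with x hx L
  exact mean_iff hc hα0 hκ0 hκ1 (fun m => h0 m x) (fun m => h1 m x) (hx hα0) L

end Pool.Agent.X262.SM
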