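import Pool.Agent.X262.SM.Main
import Pool.Agent.Results.MP_323ce2_nt.ZeroSumCriterion

set_option autoImplicit false

/-! The main theorem on the mean square of the Mertens function along `⌊α n ^ c⌋`. -/

namespace Pool.Agent.X262.SM

open Finset Filter Topology MeasureTheory
open Pool.Agent.Y854.PS (ms xs ms_mono)
open Pool.Agent.X20.Tr
open Pool.Agent.Results.MP_323ce2_nt.ZeroSumCriterion (msq NT ZerosCondition)

lemma free_of_ZC {η : ℝ} (hη : 0 ≤ η) (h : ZerosCondition) : Free η := by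
  intro s hs h0
  rcases le_or_gt 1 s.re with h1 | h1
  · exact riemannZeta_ne_zero_of_one_le_re h1 h0
  · have := (h.1 s ⟨h0, by linarith, h1⟩).1
    linarith

lemma lim_div {a L : ℕ → ℝ} {C c l : ℝ} (hc : 0 < c) (e r : ℕ → ℝ) (S : Filter ℝ) (hS : S = 𝓝 l ∨ S = atTop)
    (ha : Tendsto a atTop S) (hr : Tendsto r atTop (𝓝 1)) (he : ∀ᶠ N in atTop, |e N| ≤ C)
    (hL : Tendsto L atTop atTop) :
    Tendsto (fun N => a N * r N + e N / (c * L N)) atTop S := by
  have h1 : Tendsto (fun N => e N / (c * L N)) atTop (𝓝 0) := by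
    have h2 : Tendsto (fun N => C / (c * L N)) atTop (𝓝 0) :=
      tendsto_const_nhds.div_atTop (hL.const_mul_atTop hc)
    refine squeeze_zero_norm' ?_ h2
    filter_upwards [he, hL.eventually_ge_atTop 1] with N h3 h4
    have h5 : 0 < c * L N := by positivity
    rw [Real.norm_eq_abs, abs_div, abs_of_pos h5]
    exact div_le_div_of_nonneg_right h3 h5.le
  rcases hS with rfl | rfl
  · have := (ha.mul hr).add h1
    rwa [mul_one, add_zero] at this
  · exact (ha.atTop_mul_pos one_pos hr).atTop_add h1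

/-- **Main theorem.** -/
theorem fin (c : ℝ) (hc : 1 < c) : ∃ η κ : ℝ, 0 < η ∧ 0 < κ ∧ ∃ E : Set ℝ,
    dimH E ≤ ENNReal.ofReal (1 - κ) ∧ ∀ α : ℝ, 0 < α → α ∉ E →
      (Free η → ∃ C : ℝ, ∀ N : ℕ, 1 ≤ α * (N : ℝ) ^ c →
        |c * α ^ (1 / c) * SS α c N - II 1 (α * (N : ℝ) ^ c)| ≤ C) ∧
      ((∃ C : ℝ, ∀ x : ℝ, 2 ≤ x → II 1 x ≤ C * Real.log x) ↔
        Free η ∧ ∃ C : ℝ, ∀ N : ℕ, 2 ≤ N → SS α c N ≤ C * Real.log N) ∧
      (ZerosCondition → Tendsto (fun N : ℕ => α ^ (1 / c) * SS α c N / Real.log N) atTop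
        (𝓝 (∑' ρ : NT, 1 / ‖(ρ : ℂ) * deriv riemannZeta ρ‖ ^ 2))) ∧
      (Free η → ¬ ZerosCondition → Tendsto (fun N : ℕ => α ^ (1 / c) * SS α c N / Real.log N) atTop atTop) := by
  have hc0 : 0 < c := by linarith
  obtain ⟨κ, hκ0, hκ1, H⟩ := transfer01 c hc
  obtain ⟨δ, hδ⟩ : ∃ δ : ℝ, δ = κ / c / 2 := ⟨_, rfl⟩
  have hκc : 0 < κ / c := by positivity
  have hκc1 : κ / c < 1 := by
    rw [div_lt_one hc0]
    linarith
  have hδ0 : 0 < δ := by rw [hδ]; positivity
  have hδκ : δ < κ / c := by rw [hδ]; linarith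
  obtain ⟨E, hE, hh⟩ := H (ff δ) (ff_nonneg δ) (ff_le δ)
  refine ⟨δ / 8, κ, by positivity, hκ0, E, hE, fun α hα hαE => ?_⟩
  obtain ⟨N₀, hN₀⟩ := hh α hα hαE
  have hη0 : 0 ≤ δ / 8 := by positivity
  obtain ⟨D, hD⟩ : ∃ D : ℝ, D = c * α ^ (1 / c) := ⟨_, rfl⟩
  have hD0 : 0 < D := by rw [hD]; positivity
  have hms : ∀ N : ℕ, ms α c N = ⌊α * (N : ℝ) ^ c⌋₊ := fun _ => rfl
  -- the two comparisons
  have hcomp : Free (δ / 8) → (∃ C1 : ℝ, 0 ≤ C1 ∧ ∀ N : ℕ, |D * SS α c N - TT (ms α c N)| ≤ C1) ∧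
      ∃ C2 : ℝ, 0 ≤ C2 ∧ ∀ x : ℝ, 1 ≤ x → |II 1 x - TT ⌊x⌋₊| ≤ C2 := by
    intro hF
    constructor
    · rw [hD]
      exact comp hc hα hκ1 hδ0 hδκ hη0 (by linarith) ⟨N₀, fun N hN => (hN₀ N hN).2⟩ hF
    · obtain ⟨A, hA0, hA⟩ := Mn_bound hη0 hF (show 1 / 2 + δ / 8 < 1 / 2 + δ / 4 by linarith)
      refine II_TT (δ := δ / 2) hA0 (by linarith) fun m hm => (hA m hm).trans (le_of_eq ?_)
      congr 2
      ring
  have item1 : Free (δ / 8) → ∃ C : ℝ, ∀ N : ℕ, 1 ≤ α * (N : ℝ) ^ c →
        |c * α ^ (1 / c) * SS α c N - II 1 (α * (N : ℝ) ^ c)| ≤ C := by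
    intro hF
    obtain ⟨⟨C1, _, hC1⟩, C2, _, hC2⟩ := hcomp hF
    refine ⟨C1 + C2, fun N hN => ?_⟩
    rw [← hD]
    have a1 := abs_le.1 (hC1 N)
    have a2 := abs_le.1 (hC2 _ hN)
    rw [← hms] at a2
    rw [abs_le]
    constructor <;> linarith [a1.1, a1.2, a2.1, a2.2]
  have crit := Pool.Agent.Results.MP_323ce2_nt.ZeroSumCriterion.result
  have hWM : (∃ C : ℝ, ∀ x : ℝ, 2 ≤ x → II 1 x ≤ C * Real.log x) ↔ ZerosCondition := crit.1
  have hlog2 : 0 < Real.log 2 := Real.log_pos (by norm_num)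
  refine ⟨item1, ⟨?_, ?_⟩, ?_⟩
  · -- weak Mertens implies the sparse bound
    intro hW
    have hF : Free (δ / 8) := free_of_ZC hη0 (hWM.1 hW)
    obtain ⟨⟨C1, hC10, hC1⟩, C2, hC20, hC2⟩ := hcomp hF
    obtain ⟨C, hC⟩ := hW
    refine ⟨hF, (|C| * (|Real.log α| / Real.log 2 + c) + (C2 + TT 2 + C1) / Real.log 2) / D, fun N hN => ?_⟩
    have hN2 : (2 : ℝ) ≤ N := by exact_mod_cast hN
    have hN0 : (0 : ℝ) < N := by linarith
    have hlN : Real.log 2 ≤ Real.log N := Real.log_le_log (by norm_num) hN2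
    have hTT0 : 0 ≤ TT 2 := by
      unfold TT
      exact sum_nonneg fun m _ => by positivity
    have h1 : TT (ms α c N) ≤ |C| * (|Real.log α| / Real.log 2 + c) * Real.log N + (C2 + TT 2) := by
      have h0 : 0 ≤ |C| * (|Real.log α| / Real.log 2 + c) * Real.log N := by
        have : 0 ≤ Real.log N := by linarith
        positivity
      rcases le_or_gt 2 (α * (N : ℝ) ^ c) with h | h
      · have h2 := (abs_le.1 (hC2 _ (by linarith : (1 : ℝ) ≤ α * (N : ℝ) ^ c))).1
        rw [← hms] at h2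
        have h3 := hC _ h
        have h4 : Real.log (α * (N : ℝ) ^ c) = Real.log α + c * Real.log N := by
          rw [Real.log_mul hα.ne' (by positivity), Real.log_rpow hN0]
        have h5 : 0 ≤ Real.log (α * (N : ℝ) ^ c) := Real.log_nonneg (by linarith)
        have h6 : Real.log α ≤ |Real.log α| / Real.log 2 * Real.log N := by
          rw [div_mul_eq_mul_div, le_div_iff₀ hlog2]
          have := le_abs_self (Real.log α)
          nlinarith [abs_nonneg (Real.log α)]
        have h7 : Real.log (α * (N : ℝ) ^ c) ≤ (|Real.log α| / Real.log 2 + c) * Real.log N := by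
          rw [h4, add_mul]
          linarith
        have h8 : C * Real.log (α * (N : ℝ) ^ c) ≤ |C| * ((|Real.log α| / Real.log 2 + c) * Real.log N) :=
          (mul_le_mul_of_nonneg_right (le_abs_self C) h5).trans (mul_le_mul_of_nonneg_left h7 (abs_nonneg _))
        linarith
      · have h2 : ms α c N ≤ 2 := by
          rw [hms]
          exact Nat.floor_le_of_le (by push_cast; linarith)
        have h3 : TT (ms α c N) ≤ TT 2 := by
          unfold TT
          exact sum_le_sum_of_subset_of_nonneg (Ioc_subset_Ioc_right h2) fun m _ _ => by positivity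
        linarith
    have h2 := (abs_le.1 (hC1 N)).2
    rw [div_mul_eq_mul_div, le_div_iff₀ hD0, add_mul]
    have h3 : C2 + TT 2 + C1 ≤ (C2 + TT 2 + C1) / Real.log 2 * Real.log N := by
      rw [div_mul_eq_mul_div, le_div_iff₀ hlog2]
      exact mul_le_mul_of_nonneg_left hlN (by linarith)
    linarith [mul_comm (SS α c N) D]
  · -- the converse
    rintro ⟨hF, C, hC⟩
    obtain ⟨C', hC'⟩ := item1 hF
    rw [← hD] at hC'
    obtain ⟨B, hB⟩ : ∃ B : ℝ, B = (1 / α) ^ (1 / c) + 3 := ⟨_, rfl⟩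
    have hB1 : 1 ≤ B := by
      have : 0 ≤ (1 / α) ^ (1 / c) := by positivity
      linarith
    have hlB : 0 ≤ Real.log B := Real.log_nonneg hB1
    refine ⟨D * |C| * (Real.log B / Real.log 2 + 1 / c) + |C'| / Real.log 2, fun x hx => ?_⟩
    have hx0 : (0 : ℝ) < x := by linarith
    have hlx : Real.log 2 ≤ Real.log x := Real.log_le_log (by norm_num) hx
    obtain ⟨N, hN⟩ : ∃ N : ℕ, N = ⌈(x / α) ^ (1 / c)⌉₊ + 2 := ⟨_, rfl⟩
    have hN2 : 2 ≤ N := by omega
    have h1 : (x / α) ^ (1 / c) ≤ N := by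
      have := Nat.le_ceil ((x / α) ^ (1 / c))
      rw [hN]
      push_cast
      linarith
    have h2 : x ≤ α * (N : ℝ) ^ c := by
      have h3 := Real.rpow_le_rpow (by positivity) h1 hc0.le
      rw [← Real.rpow_mul (by positivity), one_div_mul_cancel hc0.ne', Real.rpow_one, div_le_iff₀ hα] at h3
      linarith
    have h3 := II_mono x _ (by linarith) h2
    have h4 := (abs_le.1 (hC' N (by linarith))).1
    have h5 := hC N hN2
    have hNr : (2 : ℝ) ≤ N := by exact_mod_cast hN2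
    have hlN0 : 0 ≤ Real.log N := Real.log_nonneg (by linarith)
    have h6 : (N : ℝ) ≤ B * x ^ (1 / c) := by
      have h7 := Nat.ceil_lt_add_one (show 0 ≤ (x / α) ^ (1 / c) by positivity)
      have h8 : (1 : ℝ) ≤ x ^ (1 / c) := Real.one_le_rpow (by linarith) (by positivity)
      have h9 : (x / α) ^ (1 / c) = (1 / α) ^ (1 / c) * x ^ (1 / c) := by
        rw [← Real.mul_rpow (by positivity) hx0.le]
        congr 1
        ring
      rw [hN, hB]
      push_cast
      rw [h9] at h7 ⊢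
      linarith
    have h7 : Real.log N ≤ (Real.log B / Real.log 2 + 1 / c) * Real.log x := by
      have h8 := Real.log_le_log (by linarith) h6
      rw [Real.log_mul (by linarith) (by positivity), Real.log_rpow hx0] at h8
      have h9 : Real.log B ≤ Real.log B / Real.log 2 * Real.log x := by
        rw [div_mul_eq_mul_div, le_div_iff₀ hlog2]
        exact mul_le_mul_of_nonneg_left hlx hlB
      rw [add_mul]
      linarith
    have h8 : C * Real.log N ≤ |C| * ((Real.log B / Real.log 2 + 1 / c) * Real.log x) :=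
      (mul_le_mul_of_nonneg_right (le_abs_self C) hlN0).trans (mul_le_mul_of_nonneg_left h7 (abs_nonneg _))
    have h9 : |C'| ≤ |C'| / Real.log 2 * Real.log x := by
      rw [div_mul_eq_mul_div, le_div_iff₀ hlog2]
      exact mul_le_mul_of_nonneg_left hlx (abs_nonneg _)
    have h10 : D * SS α c N ≤ D * (|C| * ((Real.log B / Real.log 2 + 1 / c) * Real.log x)) :=
      mul_le_mul_of_nonneg_left (h5.trans h8) hD0.le
    have h11 := le_abs_self C'
    have e : (D * |C| * (Real.log B / Real.log 2 + 1 / c) + |C'| / Real.log 2) * Real.log x =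
        D * (|C| * ((Real.log B / Real.log 2 + 1 / c) * Real.log x)) + |C'| / Real.log 2 * Real.log x := by ring
    rw [e]
    linarith
  · -- limits
    have hXt : Tendsto (fun N : ℕ => α * (N : ℝ) ^ c) atTop atTop :=
      ((tendsto_rpow_atTop hc0).comp tendsto_natCast_atTop_atTop).const_mul_atTop hα
    have hLt : Tendsto (fun N : ℕ => Real.log N) atTop atTop :=
      Real.tendsto_log_atTop.comp tendsto_natCast_atTop_atTop
    have hr : Tendsto (fun N : ℕ => Real.log (α * (N : ℝ) ^ c) / (c * Real.log N)) atTop (𝓝 1) := by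
      have h1 : Tendsto (fun N : ℕ => Real.log α / (c * Real.log N)) atTop (𝓝 0) :=
        tendsto_const_nhds.div_atTop (hLt.const_mul_atTop hc0)
      have h2 := h1.add_const 1
      rw [zero_add] at h2
      refine h2.congr' ?_
      filter_upwards [eventually_ge_atTop 2] with N hN
      have hN2 : (2 : ℝ) ≤ N := by exact_mod_cast hN
      have hl : 0 < Real.log N := Real.log_pos (by linarith)
      rw [Real.log_mul hα.ne' (by positivity), Real.log_rpow (by linarith), add_div,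
        div_self (by positivity)]
    have key : ∀ (S : Filter ℝ) (l : ℝ), (S = 𝓝 l ∨ S = atTop) → Free (δ / 8) →
        Tendsto (fun x : ℝ => msq (x ^ ((1 : ℝ) - 1)) x / Real.log x) atTop S →
        Tendsto (fun N : ℕ => α ^ (1 / c) * SS α c N / Real.log N) atTop S := by
      intro S l hS hF hT
      obtain ⟨C', hC'⟩ := item1 hF
      have hT' : Tendsto (fun N : ℕ => II 1 (α * (N : ℝ) ^ c) / Real.log (α * (N : ℝ) ^ c)) atTop S := by
        refine (hT.comp hXt).congr fun N => ?_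
        simp only [Function.comp]
        rw [sub_self, Real.rpow_zero]
        rfl
      have h1 := lim_div (a := fun N : ℕ => II 1 (α * (N : ℝ) ^ c) / Real.log (α * (N : ℝ) ^ c))
        (L := fun N : ℕ => Real.log N) (C := C') (c := c) (l := l) hc0
        (fun N : ℕ => c * α ^ (1 / c) * SS α c N - II 1 (α * (N : ℝ) ^ c))
        (fun N : ℕ => Real.log (α * (N : ℝ) ^ c) / (c * Real.log N)) S hS hT' hr
        ((hXt.eventually_ge_atTop 1).mono fun N hN => hC' N hN) hLt
      refine h1.congr' ?_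
      filter_upwards [eventually_ge_atTop 2, hXt.eventually_ge_atTop 2] with N hN hN3
      have hN2 : (2 : ℝ) ≤ N := by exact_mod_cast hN
      have hl : Real.log N ≠ 0 := (Real.log_pos (by linarith)).ne'
      have hl2 : Real.log (α * (N : ℝ) ^ c) ≠ 0 := (Real.log_pos (by linarith)).ne'
      field_simp
      ring
    refine ⟨fun hZ => ?_, fun hF hZ => ?_⟩
    · have h2 := (crit.2 1 one_pos le_rfl).1 hZ
      rw [one_mul] at h2
      exact key _ _ (Or.inl rfl) (free_of_ZC hη0 hZ) h2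
    · exact key _ 0 (Or.inr rfl) hF ((crit.2 1 one_pos le_rfl).2 hZ)

end Pool.Agent.X262.SM
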