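import Mathlib

set_option autoImplicit false

/-! The integral of the square of a step function. -/

namespace Pool.Agent.X262.SM

open Finset Filter Topology MeasureTheory

/-- the summatory function at the integers -/
noncomputable def Mn (k : ℕ) : ℝ := ∑ n ∈ Finset.Icc 1 k, ((ArithmeticFunction.moebius n : ℤ) : ℝ)

/-- the integral -/
noncomputable def II (a b : ℝ) : ℝ :=
  ∫ u in a..b, ((∑ n ∈ Finset.Icc 1 ⌊u⌋₊, ((ArithmeticFunction.moebius n : ℤ) : ℝ)) / u) ^ 2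

/-- the sum -/
noncomputable def TT (X : ℕ) : ℝ := ∑ m ∈ Ioc 0 X, Mn m ^ 2 / (m : ℝ) ^ 2

lemma cell_int (m : ℕ) (hm : 1 ≤ m) :
    IntervalIntegrable (fun u : ℝ => ((∑ n ∈ Finset.Icc 1 ⌊u⌋₊, ((ArithmeticFunction.moebius n : ℤ) : ℝ)) / u) ^ 2)
      volume (m : ℝ) ((m + 1 : ℕ) : ℝ) ∧
    II (m : ℝ) ((m + 1 : ℕ) : ℝ) = Mn m ^ 2 / (m * (m + 1)) := by
  have hm0 : (0 : ℝ) < m := by exact_mod_cast hm
  have hle : (m : ℝ) ≤ ((m + 1 : ℕ) : ℝ) := by push_cast; linarith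
  have hcong : ∀ᵐ u : ℝ, u ∈ Set.uIoc (m : ℝ) ((m + 1 : ℕ) : ℝ) →
      ((∑ n ∈ Finset.Icc 1 ⌊u⌋₊, ((ArithmeticFunction.moebius n : ℤ) : ℝ)) / u) ^ 2 = Mn m ^ 2 * u ^ (-2 : ℤ) := by
    have h1 : ∀ᵐ u : ℝ, u ≠ ((m + 1 : ℕ) : ℝ) := by
      simp [ae_iff, measure_singleton]
    filter_upwards [h1] with u hu1 hu2
    rw [Set.uIoc_of_le hle] at hu2
    have h3 : ⌊u⌋₊ = m := by
      rw [Nat.floor_eq_iff (by linarith [hu2.1])]
      refine ⟨hu2.1.le, ?_⟩
      have := lt_of_le_of_ne hu2.2 hu1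
      push_cast at this
      exact this
    rw [h3]
    unfold Mn
    rw [div_pow, zpow_neg, div_eq_mul_inv]
    norm_cast
  have hint : IntervalIntegrable (fun u : ℝ => Mn m ^ 2 * u ^ (-2 : ℤ)) volume (m : ℝ) ((m + 1 : ℕ) : ℝ) := by
    apply IntervalIntegrable.const_mul
    apply intervalIntegral.intervalIntegrable_zpow
    right
    rw [Set.uIcc_of_le hle]
    rintro ⟨h, _⟩
    linarith
  constructor
  · refine hint.congr_ae ?_
    rw [Filter.EventuallyEq, ae_restrict_iff' measurableSet_uIoc]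
    filter_upwards [hcong] with u hu hu2
    exact (hu hu2).symm
  · unfold II
    rw [intervalIntegral.integral_congr_ae hcong, intervalIntegral.integral_const_mul, integral_zpow]
    · have h2 : ((m : ℝ) + 1) ≠ 0 := by positivity
      push_cast
      norm_num
      field_simp
      ring
    · right
      refine ⟨by norm_num, ?_⟩
      rw [Set.uIcc_of_le hle]
      rintro ⟨h, _⟩
      linarith

lemma II_succ (X : ℕ) (hX : 1 ≤ X) :
    IntervalIntegrable (fun u : ℝ => ((∑ n ∈ Finset.Icc 1 ⌊u⌋₊, ((ArithmeticFunction.moebius n : ℤ) : ℝ)) / u) ^ 2)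
      volume 1 (X : ℝ) ∧ II 1 X = ∑ m ∈ Ioc 0 (X - 1), Mn m ^ 2 / (m * (m + 1)) := by
  induction X, hX using Nat.le_induction with
  | base =>
    rw [Nat.cast_one]
    refine ⟨IntervalIntegrable.refl, ?_⟩
    unfold II
    simp
  | succ X hX ih =>
    obtain ⟨i1, i2⟩ := ih
    obtain ⟨j1, j2⟩ := cell_int X hX
    refine ⟨i1.trans j1, ?_⟩
    have e : II 1 ((X + 1 : ℕ) : ℝ) = II 1 X + II X ((X + 1 : ℕ) : ℝ) := by
      unfold II
      exact (intervalIntegral.integral_add_adjacent_intervals i1 j1).symm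
    rw [e, i2, j2]
    obtain ⟨Y, rfl⟩ : ∃ Y, X = Y + 1 := ⟨X - 1, by omega⟩
    rw [Nat.add_sub_cancel, Nat.add_sub_cancel, Finset.sum_Ioc_succ_top (Nat.zero_le _)]

lemma intg (x : ℝ) (hx : 1 ≤ x) :
    IntervalIntegrable (fun u : ℝ => ((∑ n ∈ Finset.Icc 1 ⌊u⌋₊, ((ArithmeticFunction.moebius n : ℤ) : ℝ)) / u) ^ 2)
      volume 1 x := by
  refine (II_succ (⌊x⌋₊ + 1) (by omega)).1.mono_set ?_
  rw [Set.uIcc_of_le hx, Set.uIcc_of_le (by push_cast; linarith [Nat.lt_floor_add_one x])]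
  apply Set.Icc_subset_Icc_right
  push_cast
  exact (Nat.lt_floor_add_one x).le

lemma II_mono (x y : ℝ) (hx : 1 ≤ x) (hxy : x ≤ y) : II 1 x ≤ II 1 y := by
  have h1 := intg x hx
  have h2 := intg y (hx.trans hxy)
  have h3 := h1.symm.trans h2
  have e : II 1 y = II 1 x + II x y := by
    unfold II
    exact (intervalIntegral.integral_add_adjacent_intervals h1 h3).symm
  have h4 : 0 ≤ II x y := by
    unfold II
    exact intervalIntegral.integral_nonneg hxy fun u _ => sq_nonneg _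
  linarith

/-- sum and integral -/
lemma II_TT {A δ : ℝ} (hA : 0 ≤ A) (hδ : δ < 1) (hM : ∀ m : ℕ, 1 ≤ m → Mn m ^ 2 ≤ A * (m : ℝ) ^ (1 + δ)) :
    ∃ C : ℝ, 0 ≤ C ∧ ∀ x : ℝ, 1 ≤ x → |II 1 x - TT ⌊x⌋₊| ≤ C := by
  have hsumm : Summable (fun n : ℕ => (n : ℝ) ^ (δ - 2)) := Real.summable_nat_rpow.2 (by linarith)
  obtain ⟨T, hT⟩ : ∃ T : ℝ, T = ∑' n : ℕ, (n : ℝ) ^ (δ - 2) := ⟨_, rfl⟩
  have hT0 : 0 ≤ T := by rw [hT]; exact tsum_nonneg fun n => by positivity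
  refine ⟨A * T + A, by positivity, fun x hx => ?_⟩
  obtain ⟨X, hX⟩ : ∃ X : ℕ, X = ⌊x⌋₊ := ⟨_, rfl⟩
  rw [← hX]
  have hX1 : 1 ≤ X := by rw [hX]; exact Nat.le_floor (by simpa using hx)
  have hXr : (1 : ℝ) ≤ X := by exact_mod_cast hX1
  have hXx : (X : ℝ) ≤ x := by rw [hX]; exact Nat.floor_le (by linarith)
  have hxX : x ≤ ((X + 1 : ℕ) : ℝ) := by
    rw [hX]
    push_cast
    exact (Nat.lt_floor_add_one x).le
  have h1 := II_mono X x hXr hXx
  have h2 := II_mono x ((X + 1 : ℕ) : ℝ) hx hxX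
  rw [(II_succ X hX1).2] at h1
  rw [(II_succ (X + 1) (by omega)).2, Nat.add_sub_cancel] at h2
  have h3 : ∑ m ∈ Ioc 0 X, Mn m ^ 2 / ((m : ℝ) * (m + 1)) ≤ TT X := by
    unfold TT
    apply sum_le_sum
    intro m hm
    have hm0 : (0 : ℝ) < m := by exact_mod_cast (mem_Ioc.1 hm).1
    apply div_le_div_of_nonneg_left (sq_nonneg _) (by positivity)
    nlinarith
  have h4 : TT X - ∑ m ∈ Ioc 0 (X - 1), Mn m ^ 2 / ((m : ℝ) * (m + 1)) ≤ A * T + A := by
    obtain ⟨Y, hY⟩ : ∃ Y, X = Y + 1 := ⟨X - 1, by omega⟩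
    have h5 : ∑ m ∈ Ioc 0 Y, (Mn m ^ 2 / (m : ℝ) ^ 2 - Mn m ^ 2 / ((m : ℝ) * (m + 1))) ≤ A * T := by
      have h6 : ∀ m ∈ Ioc 0 Y, Mn m ^ 2 / (m : ℝ) ^ 2 - Mn m ^ 2 / ((m : ℝ) * (m + 1)) ≤ A * (m : ℝ) ^ (δ - 2) := by
        intro m hm
        have hm1 := (mem_Ioc.1 hm).1
        have hm0 : (0 : ℝ) < m := by exact_mod_cast hm1
        have h7 := hM m hm1
        have e : Mn m ^ 2 / (m : ℝ) ^ 2 - Mn m ^ 2 / ((m : ℝ) * (m + 1)) = Mn m ^ 2 / ((m : ℝ) ^ 2 * (m + 1)) := by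
          field_simp
          ring
        rw [e]
        have e2 : A * (m : ℝ) ^ (δ - 2) = A * (m : ℝ) ^ (1 + δ) / (m : ℝ) ^ 3 := by
          rw [mul_div_assoc]
          congr 1
          rw [eq_div_iff (by positivity), ← Real.rpow_natCast, ← Real.rpow_add hm0]
          congr 1
          push_cast
          ring
        rw [e2]
        apply div_le_div₀ ((sq_nonneg _).trans h7) h7 (by positivity)
        nlinarith [pow_pos hm0 2]
      refine (sum_le_sum h6).trans ?_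
      rw [← mul_sum]
      apply mul_le_mul_of_nonneg_left _ hA
      rw [hT]
      exact hsumm.sum_le_tsum _ fun n _ => by positivity
    have h8 : TT X = ∑ m ∈ Ioc 0 Y, Mn m ^ 2 / (m : ℝ) ^ 2 + Mn X ^ 2 / (X : ℝ) ^ 2 := by
      unfold TT
      rw [hY, Finset.sum_Ioc_succ_top (Nat.zero_le _)]
    have h9 : Mn X ^ 2 / (X : ℝ) ^ 2 ≤ A := by
      rw [div_le_iff₀ (by positivity)]
      refine (hM X hX1).trans (mul_le_mul_of_nonneg_left ?_ hA)
      rw [← Real.rpow_natCast]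
      exact Real.rpow_le_rpow_of_exponent_le hXr (by push_cast; linarith)
    rw [sum_sub_distrib] at h5
    have e3 : X - 1 = Y := by omega
    rw [e3, h8]
    linarith
  rw [abs_le]
  constructor
  · linarith
  · have : 0 ≤ A * T + A := by positivity
    linarith

end Pool.Agent.X262.SM
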