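import Pool.Agent.X262.SM.Abel
import Pool.Agent.X262.SM.Int
import Pool.Agent.H353R3.S8

set_option autoImplicit false

/-! The mean square of the Mertens function along `⌊α n ^ c⌋`. -/

namespace Pool.Agent.X262.SM

open Finset Filter Topology MeasureTheory
open Pool.Agent.Y854.PS (ms xs ms_mono)
open Pool.Agent.X20.Tr

/-- the function to which the transfer theorem is applied -/
noncomputable def ff (δ : ℝ) (m : ℕ) : ℝ := min 1 (Mn m ^ 2 / (m : ℝ) ^ (1 + δ))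

lemma Mn_zero : Mn 0 = 0 := by simp [Mn]

lemma ff_nonneg (δ : ℝ) (m : ℕ) : 0 ≤ ff δ m := by
  unfold ff
  exact le_min zero_le_one (by positivity)

lemma ff_le (δ : ℝ) (m : ℕ) : ff δ m ≤ 1 := min_le_left _ _

lemma ff_zero (δ : ℝ) : ff δ 0 = 0 := by
  unfold ff
  rw [Mn_zero]
  simp

/-- no zeros with real part `> 1/2 + η` -/
def Free (η : ℝ) : Prop := ∀ s : ℂ, 1 / 2 + η < s.re → riemannZeta s ≠ 0

/-- the sum along the sequence -/
noncomputable def SS (α c : ℝ) (N : ℕ) : ℝ := ∑ n ∈ Icc 1 N, Mn (ms α c n) ^ 2 / (ms α c n : ℝ) ^ (1 + 1 / c)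

lemma ms_tendsto {α c : ℝ} (hc : 1 < c) (hα : 0 < α) : Tendsto (fun n : ℕ => ms α c n) atTop atTop := by
  have h1 : Tendsto (fun n : ℕ => α * (n : ℝ) ^ c) atTop atTop :=
    ((tendsto_rpow_atTop (by linarith)).comp tendsto_natCast_atTop_atTop).const_mul_atTop hα
  exact tendsto_nat_floor_atTop.comp h1

lemma Mn_bound {η θ' : ℝ} (hη : 0 ≤ η) (h : Free η) (hθ : 1 / 2 + η < θ') :
    ∃ A : ℝ, 0 ≤ A ∧ ∀ m : ℕ, 1 ≤ m → Mn m ^ 2 ≤ A * (m : ℝ) ^ (2 * θ') := by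
  obtain ⟨C', hC'⟩ := H353.mertens_of_free (1 / 2 + η) (by linarith) h θ' hθ
  refine ⟨C' ^ 2, sq_nonneg _, fun m hm => ?_⟩
  have hm1 : (1 : ℝ) ≤ m := by exact_mod_cast hm
  have h1 := hC' m hm1
  rw [Nat.floor_natCast] at h1
  have h2 : |Mn m| ≤ C' * (m : ℝ) ^ θ' := h1
  have h3 : Mn m ^ 2 ≤ (C' * (m : ℝ) ^ θ') ^ 2 := by
    rw [← sq_abs (Mn m)]
    exact pow_le_pow_left₀ (abs_nonneg _) h2 2
  refine h3.trans (le_of_eq ?_)
  rw [mul_pow, ← Real.rpow_natCast ((m : ℝ) ^ θ'), ← Real.rpow_mul (by linarith)]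
  congr 2
  push_cast
  ring

/-- under the zero-free region the sum along the sequence equals the full sum -/
theorem comp {c α κ δ η : ℝ} (hc : 1 < c) (hα : 0 < α) (hκ1 : κ < 1) (hδ : 0 < δ) (hδκ : δ < κ / c)
    (hη : 0 ≤ η) (hηδ : 4 * η < δ)
    (hC : ∃ N₀ : ℕ, ∀ N : ℕ, N₀ ≤ N → |∑ n ∈ Icc 1 N, ff δ (ms α c n) -
      ∑ m ∈ Ioc 0 (ms α c N), ff δ m * wt c α m| ≤ 5 * (N : ℝ) ^ (1 - κ)) (hF : Free η) :
    ∃ C : ℝ, 0 ≤ C ∧ ∀ N : ℕ, |c * α ^ (1 / c) * SS α c N - TT (ms α c N)| ≤ C := by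
  have hc0 : 0 < c := by linarith
  have hδc : δ ≤ 1 / c := by
    have : κ / c ≤ 1 / c := div_le_div_of_nonneg_right hκ1.le hc0.le
    linarith
  obtain ⟨C1, hC10, hC1⟩ := compare hc hα hκ1 hδκ hδc (ff_nonneg δ) (ff_le δ) (ff_zero δ) hC
  obtain ⟨A, hA0, hA⟩ := Mn_bound hη hF (show 1 / 2 + η < 1 / 2 + δ / 4 by linarith)
  -- large m
  obtain ⟨m0, hm0⟩ : ∃ m0 : ℕ, ∀ m : ℕ, m0 ≤ m → 1 ≤ m ∧ A ≤ (m : ℝ) ^ (δ / 2) := by
    have h1 : Tendsto (fun n : ℕ => (n : ℝ) ^ (δ / 2)) atTop atTop :=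
      (tendsto_rpow_atTop (by positivity)).comp tendsto_natCast_atTop_atTop
    exact ((eventually_ge_atTop 1).and (h1.eventually_ge_atTop A)).exists_forall_of_atTop
  obtain ⟨h, hh⟩ : ∃ h : ℕ → ℝ, ∀ m, h m = Mn m ^ 2 / (m : ℝ) ^ (1 + 1 / c) - ff δ m * (m : ℝ) ^ (δ - 1 / c) :=
    ⟨_, fun _ => rfl⟩
  have hz : ∀ m, m0 ≤ m → h m = 0 := by
    intro m hm
    obtain ⟨a1, a2⟩ := hm0 m hm
    have hmr : (0 : ℝ) < m := by exact_mod_cast a1
    have h2 : Mn m ^ 2 / (m : ℝ) ^ (1 + δ) ≤ 1 := by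
      rw [div_le_one (by positivity)]
      refine (hA m a1).trans ?_
      calc A * (m : ℝ) ^ (2 * (1 / 2 + δ / 4)) ≤ (m : ℝ) ^ (δ / 2) * (m : ℝ) ^ (2 * (1 / 2 + δ / 4)) :=
            mul_le_mul_of_nonneg_right a2 (by positivity)
        _ = (m : ℝ) ^ (1 + δ) := by
            rw [← Real.rpow_add hmr]
            congr 1
            ring
    rw [hh]
    unfold ff
    rw [min_eq_right h2]
    have e : (m : ℝ) ^ (1 + δ) = (m : ℝ) ^ (1 + 1 / c) * (m : ℝ) ^ (δ - 1 / c) := by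
      rw [← Real.rpow_add hmr]
      congr 1
      ring
    have p1 : (m : ℝ) ^ (1 + 1 / c) ≠ 0 := by positivity
    have p2 : (m : ℝ) ^ (δ - 1 / c) ≠ 0 := by positivity
    rw [e]
    field_simp
    ring
  obtain ⟨n1, hn1⟩ := ((ms_tendsto hc hα).eventually_ge_atTop m0).exists_forall_of_atTop
  obtain ⟨C2, hC2⟩ : ∃ C2 : ℝ, C2 = ∑ n ∈ Icc 1 n1, |h (ms α c n)| := ⟨_, rfl⟩
  obtain ⟨C3, hC3⟩ : ∃ C3 : ℝ, C3 = ∑ m ∈ Ioc 0 m0, |h m * wt c α m| := ⟨_, rfl⟩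
  have hC20 : 0 ≤ C2 := by rw [hC2]; exact sum_nonneg fun _ _ => abs_nonneg _
  have hC30 : 0 ≤ C3 := by rw [hC3]; exact sum_nonneg fun _ _ => abs_nonneg _
  obtain ⟨D, hD⟩ : ∃ D : ℝ, D = c * α ^ (1 / c) := ⟨_, rfl⟩
  have hD0 : 0 < D := by rw [hD]; positivity
  refine ⟨D * (C1 + C2 + C3), by positivity, fun N => ?_⟩
  rw [← hD]
  have b1 : |SS α c N - ∑ n ∈ Icc 1 N, ff δ (ms α c n) * (ms α c n : ℝ) ^ (δ - 1 / c)| ≤ C2 := by
    unfold SS
    rw [← sum_sub_distrib]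
    have e1 : ∑ n ∈ Icc 1 N, (Mn (ms α c n) ^ 2 / (ms α c n : ℝ) ^ (1 + 1 / c) -
        ff δ (ms α c n) * (ms α c n : ℝ) ^ (δ - 1 / c)) = ∑ n ∈ Icc 1 N, h (ms α c n) :=
      sum_congr rfl fun n _ => (hh _).symm
    rw [e1]
    refine (abs_sum_le_sum_abs _ _).trans ?_
    have e2 : ∑ n ∈ Icc 1 N, |h (ms α c n)| = ∑ n ∈ (Icc 1 N).filter (fun n => n ≤ n1), |h (ms α c n)| := by
      symm
      apply sum_subset (filter_subset _ _)
      intro n hn hn2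
      have h5 : n1 ≤ n := by
        by_contra hcon
        exact hn2 (mem_filter.2 ⟨hn, by omega⟩)
      rw [hz _ (hn1 n h5), abs_zero]
    rw [e2, hC2]
    apply sum_le_sum_of_subset_of_nonneg
    · intro n hn
      obtain ⟨a1, a2⟩ := mem_filter.1 hn
      exact mem_Icc.2 ⟨(mem_Icc.1 a1).1, a2⟩
    · intro _ _ _
      exact abs_nonneg _
  have b2 : |TT (ms α c N) / D - ∑ m ∈ Ioc 0 (ms α c N), ff δ m * wt c α m * (m : ℝ) ^ (δ - 1 / c)| ≤ C3 := by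
    have e1 : TT (ms α c N) / D - ∑ m ∈ Ioc 0 (ms α c N), ff δ m * wt c α m * (m : ℝ) ^ (δ - 1 / c) =
        ∑ m ∈ Ioc 0 (ms α c N), h m * wt c α m := by
      unfold TT
      rw [sum_div, ← sum_sub_distrib]
      apply sum_congr rfl
      intro m hm
      have hmr : (0 : ℝ) < m := by exact_mod_cast (mem_Ioc.1 hm).1
      rw [hh, sub_mul]
      have e2 : Mn m ^ 2 / (m : ℝ) ^ 2 / D = Mn m ^ 2 / (m : ℝ) ^ (1 + 1 / c) * wt c α m := by
        unfold wt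
        have e3 : (m : ℝ) ^ (1 + 1 / c) = (m : ℝ) ^ 2 * (m : ℝ) ^ (1 / c - 1) := by
          rw [← Real.rpow_natCast, ← Real.rpow_add hmr]
          congr 1
          push_cast
          ring
        have p1 : (m : ℝ) ^ (1 / c - 1) ≠ 0 := by positivity
        have p2 : α ^ (1 / c) ≠ 0 := by positivity
        rw [hD, e3, Real.rpow_neg hα.le]
        field_simp
      rw [e2]
      ring
    rw [e1]
    refine (abs_sum_le_sum_abs _ _).trans ?_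
    have e2 : ∑ m ∈ Ioc 0 (ms α c N), |h m * wt c α m| =
        ∑ m ∈ (Ioc 0 (ms α c N)).filter (fun m => m ≤ m0), |h m * wt c α m| := by
      symm
      apply sum_subset (filter_subset _ _)
      intro m hm hm2
      have h5 : m0 ≤ m := by
        by_contra hcon
        exact hm2 (mem_filter.2 ⟨hm, by omega⟩)
      rw [hz _ h5, zero_mul, abs_zero]
    rw [e2, hC3]
    apply sum_le_sum_of_subset_of_nonneg
    · intro m hm
      obtain ⟨a1, a2⟩ := mem_filter.1 hm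
      exact mem_Ioc.2 ⟨(mem_Ioc.1 a1).1, a2⟩
    · intro _ _ _
      exact abs_nonneg _
  have b3 := hC1 N
  have e5 : D * SS α c N - TT (ms α c N) = D * (SS α c N - TT (ms α c N) / D) := by
    field_simp
  rw [e5, abs_mul, abs_of_pos hD0]
  apply mul_le_mul_of_nonneg_left _ hD0.le
  have c1 := abs_le.1 b1
  have c2 := abs_le.1 b2
  have c3 := abs_le.1 b3
  rw [abs_le]
  constructor <;> linarith [c1.1, c1.2, c2.1, c2.2, c3.1, c3.2]

end Pool.Agent.X262.SM
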